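import Pool.Agent.R80.WF.Fin
import Pool.Agent.R80.WF.P3A
import Pool.Agent.R80.WF.P3B
import Pool.Agent.R80.WF.F0Fin
import Pool.Agent.R80.WF.X33
import Pool.Agent.R80.WF.X54
import Pool.Agent.R80.WF.X55
import Pool.Agent.K3h7.WF.Two
import Pool.Agent.K3h7.WF.TwoTwo

/-!
# Weil numbers with prescribed p-rank over the prime field: every prime and every pair

For every prime `p` (including `p = 2`), every `g ≥ 2` and every `0 ≤ f ≤ g` other than
`(g, f) = (2, 0)`, there is an irreducible Weil `p`-polynomial of degree `2g` with exactly `f` unit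
roots such that no power of a root generates a smaller field.  By Honda-Tate theory it is the
characteristic polynomial of Frobenius of an absolutely simple abelian variety over `F_p` of
dimension `g` and `p`-rank `f`.  For `(2, 0)` the number `n(p, g, f)` is not defined (an abelian
surface of `p`-rank `0` is supersingular, hence not simple over the algebraic closure of `F_p`), and
for `g = 1` the problem file gives the answer.  So the smallest field of definition is always `F_p`:
`n(p, g, f) = 1` for every prime `p` and every pair for which a simple variety exists.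

The starting results of this problem have odd `p` with `g ≥ 3`, all `p` with `f = 1`, `p = 2` with
`f = 0`, `g ≥ 3`, and `p ≥ 17` with `1 ≤ f < g`.  New here: `p = 2` with `2 ≤ f ≤ g`, and
`(g, f) = (2, 2)` for all `p`.

Method for `p = 2`, `2 ≤ f ≤ g`: `P = ∑_{i<g} a_i (X^(2g-i) + 2^(g-i) X^i) + a_g X^g` with
`a_f` odd, `a_i` even for `i > f`, `P ≡ (X² - 1)^g` modulo 3 and `P(1) ≡ 6` modulo 9.  A factor
`h` of `P` has `h(2)² = 2^(deg h) h(1)²`, so `3 ∣ h(1)`, and `P` is irreducible as `9 ∤ P(1)`.  The
norm of `1 - x` is `6` modulo 9, so there is a prime of degree one over `3`, roots of unity are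
`±1` modulo it, and `4 · 6 = c² + 3v²` has no solution modulo 9; hence the roots of unity in
`ℚ(x)` are `±1`, and with the exponents of `P` (greatest common divisor 1) this gives
`ℚ(xⁿ) = ℚ(x)`.  The roots are located for `g ≤ 18` by sign changes of the trace polynomial and for
`g ≥ 19` by an approximate inverse of the first half of `P` near the disc `|z|² ≤ 1/2`; both
use tables checked by the kernel.  Seven small pairs need two other primes in place of `3`, and
`(2, 2)` uses `X⁴ + X³ + X² + pX + p²`.
-/

set_option autoImplicit false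

namespace Pool.Agent.Results.MP_e32a7e_nt.EveryPrime

open Polynomial

/-- For every prime `p`, every `g ≥ 2` and every `f ≤ g` with `(g, f) ≠ (2, 0)` there is a monic
integer polynomial `P` of degree `2g`, irreducible over the rationals, all of whose complex roots
have absolute value `√p`, whose coefficients of degree less than `2g - f` are divisible by `p` while
the coefficient of degree `2g - f` is not, and such that `ℚ(xⁿ) = ℚ(x)` for every complex root `x`
and every `n ≥ 1`. -/
theorem result (p g f : ℕ) (hp : p.Prime) (hg : 2 ≤ g) (hfg : f ≤ g) (h20 : ¬ (g = 2 ∧ f = 0)) :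
    ∃ P : ℤ[X], P.Monic ∧ P.natDegree = 2 * g ∧ Irreducible (P.map (Int.castRingHom ℚ)) ∧
      (∀ x : ℂ, aeval x P = 0 → ‖x‖ = Real.sqrt p) ∧
      (∀ i < 2 * g - f, (p : ℤ) ∣ P.coeff i) ∧ ¬ (p : ℤ) ∣ P.coeff (2 * g - f) ∧
      (∀ x : ℂ, aeval x P = 0 → ∀ n : ℕ, 1 ≤ n →
        IntermediateField.adjoin ℚ {x ^ n} = IntermediateField.adjoin ℚ {x}) := by
  by_cases hf1 : f = 1
  · subst hf1
    exact Y676.WP.one_final hp hg
  rcases Nat.lt_or_ge g 3 with hg3 | hg3
  · have h2 : g = 2 := by omega
    have hf2 : f = 2 := by omega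
    subst h2
    subst hf2
    exact K3h7.WF.good22 hp
  rcases Nat.eq_zero_or_pos f with h0 | h0
  · subst h0
    by_cases h1 : p = 3 ∧ g = 3
    · obtain ⟨rfl, rfl⟩ := h1
      exact R80.WF.g330
    by_cases h2 : p = 5 ∧ g = 4
    · obtain ⟨rfl, rfl⟩ := h2
      exact R80.WF.g540
    by_cases h3 : p = 5 ∧ g = 5
    · obtain ⟨rfl, rfl⟩ := h3
      exact R80.WF.g550
    exact R80.WF.good_f0 hp hg3 h1 h2 h3
  · by_cases h2 : p = 2
    · subst h2
      exact K3h7.WF.good_two hg3 (by omega) hfg
    · exact R80.WF.odd_main R80.WF.p3a R80.WF.p3b hp h2 hg3 h0 hfg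

end Pool.Agent.Results.MP_e32a7e_nt.EveryPrime
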